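import Pool.Agent.H54.TT.Val

/-!
# H10 RA, Val: matrices over a field with a discrete valuation, degree n
-/

set_option autoImplicit false

namespace Pool.Agent.H10.RA

open Matrix Pool.Agent.H54.TT

variable {F : Type} [Field F] {n : ℕ}

/-- all entries have valuation at least `k` -/
def GeN (v : F → ℤ) (k : ℤ) (M : Matrix (Fin n) (Fin n) F) : Prop := ∀ i j, Ge v k (M i j)

section

variable {v : F → ℤ} (hv : IsDV v)
include hv

theorem ge_sum {ι : Type*} (s : Finset ι) {k : ℤ} {f : ι → F} (h : ∀ i ∈ s, Ge v k (f i)) : Ge v k (∑ i ∈ s, f i) := by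
  classical
  induction s using Finset.induction_on with
  | empty => rw [Finset.sum_empty]; exact ge_zero hv k
  | insert a s ha ih =>
    rw [Finset.sum_insert ha]
    exact ge_add hv (h a (Finset.mem_insert_self a s)) (ih fun i hi => h i (Finset.mem_insert_of_mem hi))

theorem ge_prod {ι : Type*} (s : Finset ι) {f : ι → F} {k : ℤ} (h : ∀ i ∈ s, Ge v k (f i)) :
    Ge v (s.card * k) (∏ i ∈ s, f i) := by
  classical
  induction s using Finset.induction_on with
  | empty =>
    rw [Finset.prod_empty, Finset.card_empty]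
    intro _
    rw [hv.one]
    simp
  | insert a s ha ih =>
    rw [Finset.prod_insert ha, Finset.card_insert_of_notMem ha]
    have := ge_mul hv (h a (Finset.mem_insert_self a s)) (ih fun i hi => h i (Finset.mem_insert_of_mem hi))
    have e : ((s.card + 1 : ℕ) : ℤ) * k = k + s.card * k := by push_cast; ring
    rw [e]
    exact this

theorem geN_mul {k l : ℤ} {M N : Matrix (Fin n) (Fin n) F} (hM : GeN v k M) (hN : GeN v l N) : GeN v (k + l) (M * N) := by
  intro i j
  rw [Matrix.mul_apply]
  exact ge_sum hv _ fun a _ => ge_mul hv (hM _ _) (hN _ _)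

theorem geN_add {k : ℤ} {M N : Matrix (Fin n) (Fin n) F} (hM : GeN v k M) (hN : GeN v k N) : GeN v k (M + N) := by
  intro i j
  exact ge_add hv (hM i j) (hN i j)

theorem geN_smul {k l : ℤ} {c : F} {M : Matrix (Fin n) (Fin n) F} (hc : Ge v k c) (hM : GeN v l M) :
    GeN v (k + l) (c • M) := by
  intro i j
  rw [Matrix.smul_apply, smul_eq_mul]
  exact ge_mul hv hc (hM i j)

theorem geN_sum {ι : Type*} (s : Finset ι) {k : ℤ} {f : ι → Matrix (Fin n) (Fin n) F} (h : ∀ i ∈ s, GeN v k (f i)) :
    GeN v k (∑ i ∈ s, f i) := by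
  intro a b
  rw [Matrix.sum_apply]
  exact ge_sum hv s fun i hi => h i hi a b

theorem geN_one : GeN v 0 (1 : Matrix (Fin n) (Fin n) F) := by
  intro i j
  rw [Matrix.one_apply]
  split_ifs
  · intro _
    rw [hv.one]
  · exact ge_zero hv 0

theorem ge_det {k : ℤ} {m : ℕ} {M : Matrix (Fin m) (Fin m) F} (hM : GeN v k M) : Ge v (m * k) M.det := by
  rw [Matrix.det_apply]
  refine ge_sum hv _ fun σ _ => ?_
  have h1 := ge_prod hv (Finset.univ : Finset (Fin m)) (f := fun i => M (σ i) i) (k := k) fun i _ => hM _ _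
  rw [Finset.card_univ, Fintype.card_fin] at h1
  rcases Int.units_eq_one_or (Equiv.Perm.sign σ) with hs | hs
  · rw [hs, one_smul]
    exact h1
  · rw [hs, Units.neg_smul, one_smul]
    exact ge_neg hv h1

theorem ge_trace {k : ℤ} {M : Matrix (Fin n) (Fin n) F} (hM : GeN v k M) : Ge v k M.trace :=
  ge_sum hv _ fun i _ => hM i i

/-- the entries of the inverse matrix -/
theorem geN_inv {k : ℤ} {g : GL (Fin n) F} (hM : GeN v k g.val) (hd : v g.det.val = n * k) : GeN v (-k) (g⁻¹).val := by
  have hd0 : (g.val).det ≠ 0 := g.det.ne_zero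
  have h1 : (g⁻¹).val = (g.val.det)⁻¹ • g.val.adjugate := by
    rw [Matrix.coe_units_inv, Matrix.inv_def, Ring.inverse_eq_inv']
  intro i j
  cases n with
  | zero => exact i.elim0
  | succ m =>
    rw [h1, Matrix.smul_apply, smul_eq_mul, Matrix.adjugate_fin_succ_eq_det_submatrix]
    have h2 : Ge v (- ((m + 1 : ℕ) * k)) ((g.val.det)⁻¹) := by
      intro _
      rw [hv.inv hd0, ← hd]
      exact le_rfl
    have h3 : Ge v (m * k) ((g.val.submatrix j.succAbove i.succAbove).det) :=
      ge_det hv fun a b => hM _ _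
    have h4 : Ge v (0 + m * k) ((-1) ^ (j + i : ℕ) * (g.val.submatrix j.succAbove i.succAbove).det) := by
      refine ge_mul hv ?_ h3
      rcases neg_one_pow_eq_or F (j + i : ℕ) with h | h
      · rw [h]; intro _; rw [hv.one]
      · rw [h]; intro _; rw [hv.neg_one]
    have h5 := ge_mul hv h2 h4
    have e : -(((m + 1 : ℕ) : ℤ) * k) + (0 + m * k) = -k := by push_cast; ring
    rw [e] at h5
    exact h5

end

/-- the product of the centre and of the integral matrices -/
def Zd (v : F → ℤ) (g : GL (Fin n) F) : Prop := ∃ k : ℤ, GeN v k g.val ∧ v g.det.val = n * k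

section

variable {v : F → ℤ} (hv : IsDV v)
include hv

theorem vdet_mul (g h : GL (Fin n) F) : v (g * h).det.val = v g.det.val + v h.det.val := by
  rw [map_mul, Units.val_mul]
  exact hv.mul _ _ g.det.ne_zero h.det.ne_zero

theorem vdet_one : v (1 : GL (Fin n) F).det.val = 0 := by
  rw [map_one, Units.val_one]
  exact hv.one

theorem vdet_inv (g : GL (Fin n) F) : v (g⁻¹).det.val = - v g.det.val := by
  have := vdet_mul hv g g⁻¹
  rw [mul_inv_cancel, vdet_one hv] at this
  omega

theorem Zd.mul {g h : GL (Fin n) F} (hg : Zd v g) (hh : Zd v h) : Zd v (g * h) := by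
  obtain ⟨k, h1, h2⟩ := hg
  obtain ⟨l, h3, h4⟩ := hh
  refine ⟨k + l, geN_mul hv h1 h3, ?_⟩
  rw [vdet_mul hv, h2, h4]
  ring

theorem Zd.inv {g : GL (Fin n) F} (hg : Zd v g) : Zd v g⁻¹ := by
  obtain ⟨k, h1, h2⟩ := hg
  refine ⟨-k, geN_inv hv h1 h2, ?_⟩
  rw [vdet_inv hv, h2]
  ring

theorem Zd.one : Zd v (1 : GL (Fin n) F) := ⟨0, geN_one hv, by rw [vdet_one hv]; ring⟩

end

/-- the order of the lattice of `h`: the matrices `M` with `h⁻¹ M h` integral -/
def InE (v : F → ℤ) (h : GL (Fin n) F) (M : Matrix (Fin n) (Fin n) F) : Prop := GeN v 0 ((h⁻¹).val * M * h.val)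

section

variable {v : F → ℤ} (hv : IsDV v)
include hv

theorem InE.mul {h : GL (Fin n) F} {M N : Matrix (Fin n) (Fin n) F} (hM : InE v h M) (hN : InE v h N) :
    InE v h (M * N) := by
  have := geN_mul hv hM hN
  rw [add_zero] at this
  have e : (h⁻¹).val * M * h.val * ((h⁻¹).val * N * h.val) = (h⁻¹).val * (M * N) * h.val := by
    have e1 : h.val * (h⁻¹).val = 1 := h.mul_inv
    calc (h⁻¹).val * M * h.val * ((h⁻¹).val * N * h.val) = (h⁻¹).val * M * (h.val * (h⁻¹).val) * N * h.val := by
          simp only [mul_assoc]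
      _ = _ := by rw [e1]; simp only [mul_assoc, one_mul]
  rw [e] at this
  exact this

theorem InE.trace {h : GL (Fin n) F} {M : Matrix (Fin n) (Fin n) F} (hM : InE v h M) : Ge v 0 M.trace := by
  have h1 := ge_trace hv hM
  have e : ((h⁻¹).val * M * h.val).trace = M.trace := by
    rw [Matrix.trace_mul_comm, ← Matrix.mul_assoc]
    have e1 : h.val * (h⁻¹).val = 1 := h.mul_inv
    rw [e1, one_mul]
  rwa [e] at h1

theorem InE.sum {h : GL (Fin n) F} {ι : Type*} (s : Finset ι) {f : ι → Matrix (Fin n) (Fin n) F}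
    (hf : ∀ i ∈ s, InE v h (f i)) : InE v h (∑ i ∈ s, f i) := by
  unfold InE
  rw [Matrix.mul_sum, Matrix.sum_mul]
  exact geN_sum hv s hf

theorem InE.smul {h : GL (Fin n) F} {c : F} (hc : Ge v 0 c) {M : Matrix (Fin n) (Fin n) F} (hM : InE v h M) :
    InE v h (c • M) := by
  unfold InE
  rw [Matrix.mul_smul, Matrix.smul_mul]
  have := geN_smul hv hc hM
  rwa [add_zero] at this

end

/-- if the order of `h` is contained in the order of `h'`, the vertices are equal -/
theorem zd_of_orders {v : F → ℤ} (hv : IsDV v) {h h' : GL (Fin n) F}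
    (H : ∀ M : Matrix (Fin n) (Fin n) F, InE v h M → InE v h' M) : Zd v (h⁻¹ * h') := by
  classical
  cases n with
  | zero =>
    refine ⟨0, fun i => i.elim0, ?_⟩
    have : (h⁻¹ * h').det.val = 1 := by
      show (h⁻¹ * h').val.det = 1
      exact Matrix.det_fin_zero
    rw [this, hv.one]
    simp
  | succ m =>
    set c : GL (Fin (m + 1)) F := h⁻¹ * h' with hc
    -- for every matrix `M` with integral entries `c⁻¹ M c` is integral
    have H1 : ∀ M : Matrix (Fin (m + 1)) (Fin (m + 1)) F, GeN v 0 M → GeN v 0 ((c⁻¹).val * M * c.val) := by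
      intro M hM
      have h1 : InE v h (h.val * M * (h⁻¹).val) := by
        unfold InE
        have e1 : (h⁻¹).val * h.val = 1 := h.inv_mul
        have e : (h⁻¹).val * (h.val * M * (h⁻¹).val) * h.val = M := by
          calc (h⁻¹).val * (h.val * M * (h⁻¹).val) * h.val = ((h⁻¹).val * h.val) * M * ((h⁻¹).val * h.val) := by
                simp only [mul_assoc]
            _ = M := by rw [e1, one_mul, mul_one]
        rw [e]
        exact hM
      have h2 := H _ h1
      unfold InE at h2
      have e : (h'⁻¹).val * (h.val * M * (h⁻¹).val) * h'.val = (c⁻¹).val * M * c.val := by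
        rw [hc, _root_.mul_inv_rev, inv_inv, Units.val_mul, Units.val_mul]
        simp only [mul_assoc]
      rwa [e] at h2
    -- products of entries
    have H2 : ∀ a i j b, Ge v 0 ((c⁻¹).val a i * c.val j b) := by
      intro a i j b
      have h1 := H1 (Matrix.single i j (1 : F)) (by
        intro p q
        rw [Matrix.single_apply]
        split_ifs
        · intro _
          rw [hv.one]
        · exact ge_zero hv 0) a b
      have e : ((c⁻¹).val * Matrix.single i j (1 : F) * c.val) a b = (c⁻¹).val a i * c.val j b := by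
        rw [Matrix.mul_apply, Finset.sum_eq_single j]
        · rw [Matrix.mul_single_apply_same, mul_one]
        · intro q _ hq
          rw [Matrix.mul_single_apply_of_ne _ _ _ _ _ (Ne.symm (Ne.symm hq)), zero_mul]
        · intro hq
          exact absurd (Finset.mem_univ _) hq
      rwa [e] at h1
    -- an entry of minimal valuation
    set T : Finset (Fin (m + 1) × Fin (m + 1)) := Finset.univ.filter fun p => c.val p.1 p.2 ≠ 0 with hT
    have hTne : T.Nonempty := by
      by_contra hne
      rw [Finset.not_nonempty_iff_eq_empty] at hne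
      have h0 : c.val = 0 := by
        ext p q
        by_contra hpq
        have : (p, q) ∈ T := by
          rw [hT, Finset.mem_filter]
          exact ⟨Finset.mem_univ _, hpq⟩
        rw [hne] at this
        exact absurd this (Finset.notMem_empty _)
      exact c.ne_zero h0
    obtain ⟨⟨j, b⟩, hjb, hmin⟩ := Finset.exists_min_image T (fun p => v (c.val p.1 p.2)) hTne
    have hjb' : c.val j b ≠ 0 := (Finset.mem_filter.1 hjb).2
    set k := v (c.val j b) with hk
    have hc1 : GeN v k c.val := by
      intro p q hpq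
      exact hmin (p, q) (by rw [hT, Finset.mem_filter]; exact ⟨Finset.mem_univ _, hpq⟩)
    have hc2 : GeN v (-k) (c⁻¹).val := by
      intro a i hai
      have h1 := H2 a i j b (mul_ne_zero hai hjb')
      rw [hv.mul _ _ hai hjb'] at h1
      omega
    refine ⟨k, hc1, ?_⟩
    have h1 : ((m + 1 : ℕ) : ℤ) * k ≤ v c.det.val := ge_det hv hc1 c.det.ne_zero
    have h2 : ((m + 1 : ℕ) : ℤ) * (-k) ≤ v (c⁻¹).det.val := ge_det hv hc2 (c⁻¹).det.ne_zero
    rw [vdet_inv hv] at h2
    have h3 : ((m + 1 : ℕ) : ℤ) * (-k) = -(((m + 1 : ℕ) : ℤ) * k) := by ring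
    rw [h3] at h2
    linarith

end Pool.Agent.H10.RA
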