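import Pool.Agent.H10.RA.Obj

/-!
# H10 RA, Abl: objects of the commutative subgroups

`H` is a commutative subgroup of `G ≤ PSL_n(F)`. The `n`-th powers of the matrices over `H` commute with all matrices over
`H`: a commutator is a scalar `c` with `c ^ n = 1`. The object is the commutative algebra spanned by the `n`-th powers.
-/

set_option autoImplicit false

namespace Pool.Agent.H10.RA

open Pool.Agent.H54.TT Pool.Agent.H98.FJ Pool.Agent.H76.GT Pool.Agent.H2.WN

variable {F : Type} [Field F] {n : ℕ}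

/-- the subgroup generated by the `m`-th powers -/
def pwG (m : ℕ) (P : Subgroup (GL (Fin n) F)) : Subgroup (GL (Fin n) F) := Subgroup.closure {x | ∃ a ∈ P, x = a ^ m}

theorem pow_mem_pwG {m : ℕ} {P : Subgroup (GL (Fin n) F)} {a : GL (Fin n) F} (ha : a ∈ P) : a ^ m ∈ pwG m P :=
  Subgroup.subset_closure ⟨a, ha, rfl⟩

theorem pwG_mono {m : ℕ} {P Q : Subgroup (GL (Fin n) F)} (h : P ≤ Q) : pwG m P ≤ pwG m Q :=
  Subgroup.closure_mono fun _ ⟨a, ha, e⟩ => ⟨a, h ha, e⟩

theorem pwG_conj (m : ℕ) (g : GL (Fin n) F) (P : Subgroup (GL (Fin n) F)) :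
    pwG m (P.map (MulAut.conj g).toMonoidHom) = (pwG m P).map (MulAut.conj g).toMonoidHom := by
  unfold pwG
  rw [MonoidHom.map_closure]
  congr 1
  ext x
  constructor
  · rintro ⟨_, ⟨a, ha, rfl⟩, rfl⟩
    exact ⟨a ^ m, ⟨a, ha, rfl⟩, by rw [map_pow]⟩
  · rintro ⟨_, ⟨a, ha, rfl⟩, rfl⟩
    exact ⟨(MulAut.conj g).toMonoidHom a, ⟨a, ha, rfl⟩, by rw [map_pow]⟩

/-- two elements which commute modulo scalars: the `n`-th power of one commutes with the other -/
theorem pow_comm_of_scalar {a b : GL (Fin n) F} {c : F} (h : (a * b * a⁻¹ * b⁻¹).val = c • (1 : Mn n F)) :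
    a ^ n * b = b * a ^ n := by
  have h1 : a.val * b.val = c • (b.val * a.val) := by
    have e : a * b = (a * b * a⁻¹ * b⁻¹) * (b * a) := by group
    rw [← Units.val_mul, ← Units.val_mul, e, Units.val_mul, h, Matrix.smul_mul, one_mul]
  have hcn : c ^ n = 1 := by
    have h2 : (a * b * a⁻¹ * b⁻¹).val.det = c ^ n := by
      rw [h, Matrix.det_smul, Matrix.det_one, Fintype.card_fin, mul_one]
    have h3 : (a * b * a⁻¹ * b⁻¹).det = 1 := by
      rw [map_mul, map_mul, map_mul, map_inv, map_inv]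
      rw [mul_right_comm a.det b.det, mul_inv_cancel, one_mul, mul_inv_cancel]
    have h4 : (a * b * a⁻¹ * b⁻¹).det.val = 1 := by rw [h3, Units.val_one]
    rw [← h2]
    exact h4
  have h5 : ∀ m : ℕ, a.val ^ m * b.val = c ^ m • (b.val * a.val ^ m) := by
    intro m
    induction m with
    | zero => simp
    | succ m ih =>
      rw [pow_succ, mul_assoc, h1, Matrix.mul_smul, ← mul_assoc, ih, Matrix.smul_mul, smul_smul, mul_assoc,
        ← pow_succ, pow_succ c, mul_comm c]
  apply Units.ext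
  rw [Units.val_mul, Units.val_mul, Units.val_pow_eq_pow_val, h5 n, hcn, one_smul]

/-- the span of the `n`-th powers is commutative -/
theorem comm_pwG {P : Subgroup (GL (Fin n) F)}
    (hP : ∀ a ∈ P, ∀ b ∈ P, ∃ c : F, (a * b * a⁻¹ * b⁻¹).val = c • (1 : Mn n F)) {x y : Mn n F} (hx : x ∈ spG (pwG n P))
    (hy : y ∈ spG (pwG n P)) : x * y = y * x := by
  have hle : pwG n P ≤ P := by
    unfold pwG
    rw [Subgroup.closure_le]
    rintro _ ⟨a, ha, rfl⟩
    exact P.pow_mem ha n
  have hcen : ∀ a ∈ pwG n P, ∀ b ∈ P, a * b = b * a := by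
    intro a ha b hb
    refine Subgroup.closure_induction (p := fun a _ => a * b = b * a) ?_ ?_ ?_ ?_ ha
    · rintro _ ⟨a, ha, rfl⟩
      obtain ⟨c, hc⟩ := hP a ha b hb
      exact pow_comm_of_scalar hc
    · rw [one_mul, mul_one]
    · intro p q _ _ hp hq
      rw [mul_assoc, hq, ← mul_assoc, hp, mul_assoc]
    · intro p _ hp
      rw [inv_mul_eq_iff_eq_mul, ← mul_assoc, hp, mul_inv_cancel_right]
  refine Submodule.span_induction (p := fun x _ => x * y = y * x) ?_ ?_ ?_ ?_ hx
  · rintro _ ⟨a, ha, rfl⟩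
    refine Submodule.span_induction (p := fun y _ => a.val * y = y * a.val) ?_ ?_ ?_ ?_ hy
    · rintro _ ⟨b, hb, rfl⟩
      rw [← Units.val_mul, ← Units.val_mul, hcen a ha b (hle hb)]
    · rw [mul_zero, zero_mul]
    · intro p q _ _ hp hq
      rw [mul_add, add_mul, hp, hq]
    · intro c p _ hp
      rw [Matrix.mul_smul, Matrix.smul_mul, hp]
  · rw [mul_zero, zero_mul]
  · intro p q _ _ hp hq
    rw [mul_add, add_mul, hp, hq]
  · intro c p _ hp
    rw [Matrix.mul_smul, Matrix.smul_mul, hp]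

/-- a matrix which commutes with all matrices is scalar -/
theorem scalar_of_comm {x : Mn n F} (h : ∀ y : Mn n F, x * y = y * x) : ∃ c : F, x = c • (1 : Mn n F) := by
  have h4 : x ∈ Set.range (Matrix.scalar (Fin n) : F → Matrix (Fin n) (Fin n) F) := by
    rw [Matrix.mem_range_scalar_iff_commute_single']
    intro i j
    exact (h _).symm
  obtain ⟨r, hr⟩ := h4
  refine ⟨r, ?_⟩
  rw [← hr, Matrix.smul_one_eq_diagonal]
  rfl

/-- Objects of the commutative subgroups which contain an element whose `n`-th power is not trivial. PROOF. The object of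
`H` is the algebra spanned by the `n`-th powers of the elements of determinant one over `H`. -/
theorem hasObj_abl {C : (G : Type) → [Group G] → Prop} (hC : Inherits C) (hNA : NA C n F)
    {G : Type} [Group G] (σ : G →* PG n F) (hσ : Function.Injective σ)
    (hdet : ∀ g, ∃ a : GL (Fin n) F, a.val.det = 1 ∧ pr n F a = σ g) {Ob : Type} [MulAction G Ob] :
    HasObj C (AblGrp (G := G) Ob ⊥ n) (n ^ 2) := by
  let iS : MulAction G (Sp n F) := MulAction.compHom _ σ
  let sp : Subgroup G → Sp n F := fun H => spG (pwG n (lft σ H))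
  have hle : ∀ H H' : Subgroup G, H ≤ H' → spG (pwG n (lft σ H)) ≤ spG (pwG n (lft σ H')) := fun H H' hle =>
    spG_mono (pwG_mono (lft_mono σ hle))
  refine ⟨Sp n F, iS, fun H => Module.finrank F (spG (pwG n (lft σ H))), sp, ?_, ?_, ?_, ?_, ?_⟩
  · intro H _
    exact finrank_le _
  · intro H H' _ _ h
    exact Submodule.finrank_mono (hle H H' h)
  · intro H H' _ _ h he
    exact Submodule.eq_of_le_of_finrank_eq (hle H H' h) he
  · intro g H _
    obtain ⟨a, -, ha⟩ := hdet g
    show sp (H.map (MulAut.conj g).toMonoidHom) = σ g • sp H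
    rw [← ha, pr_smul_sp]
    show spG (pwG n (lft σ (H.map (MulAut.conj g).toMonoidHom))) = cjS a (spG (pwG n (lft σ H)))
    rw [lft_conj σ H g ha, pwG_conj, spG_conj]
  · intro H hH
    have hP : ∀ a ∈ lft σ H, ∀ b ∈ lft σ H, ∃ c : F, (a * b * a⁻¹ * b⁻¹).val = c • (1 : Mn n F) := by
      rintro a ⟨-, g, hg, e⟩ b ⟨-, k, hk, e'⟩
      rw [← pr_eq_one, map_mul, map_mul, map_mul, map_inv, map_inv, e, e', ← map_mul, ← map_inv, ← map_inv, ← map_mul,
        ← map_mul, Subgroup.mem_bot.1 (hH.1 g hg k hk), map_one]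
    obtain ⟨k, hk, x, hx⟩ := hH.2
    obtain ⟨a, had, ha⟩ := hdet k
    have haH : a ∈ lft σ H := ⟨had, k, hk, ha⟩
    have hns : ∀ c : F, (a ^ n).val ≠ c • (1 : Mn n F) := by
      intro c hc
      apply hx
      have h1 : pr n F (a ^ n) = 1 := pr_eq_one.2 ⟨c, hc⟩
      rw [map_pow, ha, ← map_pow] at h1
      have h2 : k ^ n = 1 := hσ (by rw [h1, map_one])
      rw [h2, one_smul]
    have hA : C (MulAction.stabilizer (PG n F) (sp H)) := by
      refine hNA (sp H) (one_mem_spG _) (fun x hx y hy => mul_mem_spG hx hy) ⟨(a ^ n).val, mem_spG (pow_mem_pwG haH), hns⟩ ?_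
      intro htop
      have htop' : spG (pwG n (lft σ H)) = ⊤ := htop
      obtain ⟨c, hc⟩ := scalar_of_comm (x := (a ^ n).val) fun y =>
        comm_pwG hP (mem_spG (pow_mem_pwG haH)) (by rw [htop']; exact Submodule.mem_top)
      exact hns c hc
    refine mem_of_pg hC σ hσ _ hA _ fun g hg => ?_
    rw [MulAction.mem_stabilizer_iff] at hg
    exact hg

end Pool.Agent.H10.RA
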