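import Pool.Agent.H10.RA.Obj

/-!
# H10 RA, Bdd: objects of the subgroups which fix a point
-/

set_option autoImplicit false

namespace Pool.Agent.H10.RA

open Pool.Agent.H54.TT Pool.Agent.H98.FJ Pool.Agent.H76.GT Pool.Agent.H2.WN

variable {F : Type} [Field F] {n : ℕ}

/-- the subgroup of the elements which fix the tuple `t` of vertices -/
def fixT {ι : Type} {v : ι → F → ℤ} (hv : ∀ i, IsDV (v i)) {G : Type} [Group G] (σ : G →* PG n F) (s : Set ι)
    (t : ∀ i : s, Vn n (hv i)) : Subgroup G where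
  carrier := {g | ∀ i : s, σ g • t i = t i}
  mul_mem' := by
    intro g h hg hh i
    rw [map_mul, mul_smul, hh i, hg i]
  one_mem' := fun i => by rw [map_one, one_smul]
  inv_mem' := by
    intro g hg i
    rw [map_inv, inv_smul_eq_iff, hg i]

/-- Objects of the nontrivial subgroups which fix a point of `Ob`. PROOF. The object of `H` is the algebra spanned by the
elements of determinant one over `H`, or, if this is the whole matrix algebra, the tuple of the vertices fixed by `H`. -/
theorem hasObj_bdd {C : (G : Type) → [Group G] → Prop} (hC : Inherits C) (hNA : NA C n F) {ι : Type} {v : ι → F → ℤ}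
    (h : PlaceSys F ι v) {G : Type} [Group G] (σ : G →* PG n F) (hσ : Function.Injective σ)
    (hdet : ∀ g, ∃ a : GL (Fin n) F, a.val.det = 1 ∧ pr n F a = σ g) (s : Set ι)
    (hfix : ∀ i, i ∉ s → ∃ x : Vn n (h.dv i), ∀ g : G, σ g • x = x)
    (hst : ∀ t : (∀ i : s, Vn n (h.dv i)), C (fixT h.dv σ s t))
    {Ob : Type} [MulAction G Ob] (cls : Ob → ∀ i : s, Vn n (h.dv i))
    (hcls : ∀ (g : G) (x : Ob) (i : s), cls (g • x) i = σ g • cls x i) :
    HasObj C (BddGrp (G := G) Ob ⊥) (n ^ 2) := by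
  classical
  -- the fixed vertices
  have hall : ∀ (H : Subgroup G) (x : Ob), H ≤ MulAction.stabilizer G x → ∀ i, ∃ y : Vn n (h.dv i),
      ∀ a ∈ lft σ H, a • y = y := by
    intro H x hx i
    by_cases hi : i ∈ s
    · refine ⟨cls x ⟨i, hi⟩, ?_⟩
      rintro a ⟨-, g, hg, e⟩
      rw [← pr_smul, e, ← hcls g x ⟨i, hi⟩, MulAction.mem_stabilizer_iff.1 (hx hg)]
    · obtain ⟨y, hy⟩ := hfix i hi
      refine ⟨y, ?_⟩
      rintro a ⟨-, g, -, e⟩
      rw [← pr_smul, e]
      exact hy g
  have hd : ∀ (H : Subgroup G), ∀ a ∈ lft σ H, a.val.det = 1 := fun H a ha => ha.1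
  -- the tuple fixed by `H`
  obtain ⟨tt, htt⟩ : ∃ tt : Subgroup G → ∀ i : s, Vn n (h.dv i), ∀ H : Subgroup G, (∃ x : Ob, H ≤ MulAction.stabilizer G x) →
      ∀ i : s, ∀ g ∈ H, σ g • tt H i = tt H i := by
    refine ⟨fun H => if hx : ∃ x : Ob, H ≤ MulAction.stabilizer G x then cls hx.choose else fun i => ((1 : GL (Fin n) F) : _),
      ?_⟩
    intro H hx i g hg
    show σ g • (if hx : ∃ x : Ob, H ≤ MulAction.stabilizer G x then cls hx.choose else fun i => ((1 : GL (Fin n) F) : _)) i
      = (if hx : ∃ x : Ob, H ≤ MulAction.stabilizer G x then cls hx.choose else fun i => ((1 : GL (Fin n) F) : _)) i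
    rw [dif_pos hx, ← hcls g, MulAction.mem_stabilizer_iff.1 (hx.choose_spec hg)]
  have htt' : ∀ H : Subgroup G, (∃ x : Ob, H ≤ MulAction.stabilizer G x) → ∀ i : s, ∀ a ∈ lft σ H, a • tt H i = tt H i := by
    rintro H hx i a ⟨-, g, hg, e⟩
    rw [← pr_smul, e]
    exact htt H hx i g hg
  let iS : MulAction G (Sp n F) := MulAction.compHom _ σ
  let iV : ∀ i : s, MulAction G (Vn n (h.dv i)) := fun i => MulAction.compHom _ σ
  let sp : Subgroup G → Sp n F := fun H => spG (lft σ H)
  have hsp : ∀ H : Subgroup G, (sp H).sub = spG (lft σ H) := fun H => rfl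
  let O : Subgroup G → Sp n F ⊕ (∀ i : s, Vn n (h.dv i)) := fun H =>
    if spG (lft σ H) = ⊤ then Sum.inr (tt H) else Sum.inl (sp H)
  refine ⟨Sp n F ⊕ (∀ i : s, Vn n (h.dv i)), inferInstance, fun H => Module.finrank F (spG (lft σ H)), O, ?_, ?_, ?_, ?_, ?_⟩
  · intro H _
    exact finrank_le _
  · intro H H' _ _ hle
    exact Submodule.finrank_mono (spG_mono (lft_mono σ hle))
  · intro H H' hH hH' hle he
    have h1 : spG (lft σ H) = spG (lft σ H') :=
      Submodule.eq_of_le_of_finrank_eq (spG_mono (lft_mono σ hle)) he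
    show (if spG (lft σ H) = ⊤ then Sum.inr (tt H) else Sum.inl (sp H)) =
      (if spG (lft σ H') = ⊤ then Sum.inr (tt H') else Sum.inl (sp H'))
    rw [← h1]
    by_cases htop : spG (lft σ H) = ⊤
    · rw [if_pos htop, if_pos htop]
      congr 1
      funext i
      obtain ⟨x, hx⟩ := hH.1
      exact vertex_unique h (hd H) (hall H x hx) htop i (htt' H hH.1 i) fun a ha =>
        htt' H' hH'.1 i a (lft_mono σ hle ha)
    · rw [if_neg htop, if_neg htop]
      congr 1
  · intro g H hH
    obtain ⟨a, -, ha⟩ := hdet g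
    have h2 : spG (lft σ (H.map (MulAut.conj g).toMonoidHom)) = cjS a (spG (lft σ H)) := by
      rw [lft_conj σ H g ha, spG_conj]
    have h3 : (spG (lft σ (H.map (MulAut.conj g).toMonoidHom)) = ⊤) ↔ (spG (lft σ H) = ⊤) := by
      rw [h2, cjS_eq_top]
    show (if spG (lft σ (H.map (MulAut.conj g).toMonoidHom)) = ⊤ then Sum.inr (tt (H.map (MulAut.conj g).toMonoidHom))
      else Sum.inl (sp (H.map (MulAut.conj g).toMonoidHom))) = g • (if spG (lft σ H) = ⊤ then Sum.inr (tt H) else Sum.inl (sp H))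
    by_cases htop : spG (lft σ H) = ⊤
    · rw [if_pos (h3.2 htop), if_pos htop]
      show Sum.inr (tt (H.map (MulAut.conj g).toMonoidHom)) = (Sum.inr (g • tt H) : Sp n F ⊕ (∀ i : s, Vn n (h.dv i)))
      congr 1
      funext i
      obtain ⟨x, hx⟩ := hH.1
      have hx' : H.map (MulAut.conj g).toMonoidHom ≤ MulAction.stabilizer G (g • x) := by
        rintro _ ⟨k, hk, rfl⟩
        rw [MulAction.mem_stabilizer_iff]
        show (g * k * g⁻¹) • g • x = g • x
        rw [← mul_smul, inv_mul_cancel_right, mul_smul, MulAction.mem_stabilizer_iff.1 (hx hk)]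
      refine vertex_unique h (hd _) (hall _ (g • x) hx') (h3.2 htop) i (htt' _ ⟨g • x, hx'⟩ i) ?_
      rintro b ⟨-, _, ⟨k, hk, rfl⟩, e⟩
      rw [← pr_smul, e]
      show σ (g * k * g⁻¹) • (σ g • tt H i) = σ g • tt H i
      rw [map_mul, map_mul, map_inv, ← mul_smul, inv_mul_cancel_right, mul_smul, htt H hH.1 i k hk]
    · rw [if_neg (fun hc => htop (h3.1 hc)), if_neg htop]
      show Sum.inl (sp (H.map (MulAut.conj g).toMonoidHom)) = (Sum.inl (g • sp H) : Sp n F ⊕ (∀ i : s, Vn n (h.dv i)))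
      congr 1
      show sp (H.map (MulAut.conj g).toMonoidHom) = σ g • sp H
      rw [← ha, pr_smul_sp]
      exact h2
  · intro H hH
    show C (MulAction.stabilizer G (if spG (lft σ H) = ⊤ then Sum.inr (tt H) else Sum.inl (sp H)))
    by_cases htop : spG (lft σ H) = ⊤
    · rw [if_pos htop]
      have e : MulAction.stabilizer G (Sum.inr (tt H) : Sp n F ⊕ (∀ i : s, Vn n (h.dv i))) = fixT h.dv σ s (tt H) := by
        ext g
        rw [MulAction.mem_stabilizer_iff]
        show Sum.inr (g • tt H) = (Sum.inr (tt H) : Sp n F ⊕ (∀ i : s, Vn n (h.dv i))) ↔ _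
        rw [Sum.inr.injEq, funext_iff]
        rfl
      rw [e]
      exact hst _
    · rw [if_neg htop]
      have hA : C (MulAction.stabilizer (PG n F) (sp H)) := by
        refine hNA (sp H) (one_mem_spG _) (fun x hx y hy => mul_mem_spG hx hy) ?_ htop
        obtain ⟨g, hg, hg1⟩ := SetLike.not_le_iff_exists.1 hH.2
        obtain ⟨a, had, ha⟩ := hdet g
        refine ⟨a.val, mem_spG ⟨had, g, hg, ha⟩, fun c hc => hg1 ?_⟩
        rw [Subgroup.mem_bot]
        apply hσ
        rw [map_one, ← ha, pr_eq_one]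
        exact ⟨c, hc⟩
      refine mem_of_pg hC σ hσ _ hA _ fun g hg => ?_
      rw [MulAction.mem_stabilizer_iff] at hg
      exact Sum.inl_injective hg

end Pool.Agent.H10.RA
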