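import Pool.Agent.H10.RA.Gram

/-!
# H10 RA, Edge: subgroups which fix two different vertices
-/

set_option autoImplicit false

namespace Pool.Agent.H10.RA

open Matrix Pool.Agent.H54.TT

variable {F : Type} [Field F] {n : ℕ}

/-- the span of a subgroup -/
def spG (P : Subgroup (GL (Fin n) F)) : Submodule F (Matrix (Fin n) (Fin n) F) :=
  Submodule.span F {x | ∃ g ∈ P, x = g.val}

theorem mem_spG {P : Subgroup (GL (Fin n) F)} {g : GL (Fin n) F} (h : g ∈ P) : g.val ∈ spG P :=
  Submodule.subset_span ⟨g, h, rfl⟩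

theorem spG_mono {P Q : Subgroup (GL (Fin n) F)} (h : P ≤ Q) : spG P ≤ spG Q :=
  Submodule.span_mono fun _ ⟨g, hg, e⟩ => ⟨g, h hg, e⟩

theorem one_mem_spG (P : Subgroup (GL (Fin n) F)) : (1 : Matrix (Fin n) (Fin n) F) ∈ spG P :=
  mem_spG P.one_mem

theorem mul_mem_spG {P : Subgroup (GL (Fin n) F)} {x y : Matrix (Fin n) (Fin n) F} (hx : x ∈ spG P) (hy : y ∈ spG P) :
    x * y ∈ spG P := by
  refine Submodule.span_induction (p := fun x _ => x * y ∈ spG P) ?_ ?_ ?_ ?_ hx
  · rintro _ ⟨g, hg, rfl⟩
    refine Submodule.span_induction (p := fun y _ => g.val * y ∈ spG P) ?_ ?_ ?_ ?_ hy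
    · rintro _ ⟨h, hh, rfl⟩
      rw [← Units.val_mul]
      exact mem_spG (P.mul_mem hg hh)
    · rw [mul_zero]
      exact Submodule.zero_mem _
    · intro p q _ _ hp hq
      rw [mul_add]
      exact Submodule.add_mem _ hp hq
    · intro c p _ hp
      rw [Matrix.mul_smul]
      exact Submodule.smul_mem _ c hp
  · rw [zero_mul]
    exact Submodule.zero_mem _
  · intro p q _ _ hp hq
    rw [add_mul]
    exact Submodule.add_mem _ hp hq
  · intro c p _ hp
    rw [Matrix.smul_mul]
    exact Submodule.smul_mem _ c hp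

/-- an element of the product of the centre and of the integral matrices with unit determinant is integral -/
theorem geN_of_zd {v : F → ℤ} {g : GL (Fin n) F} (h : Zd v g) (hd : v g.det.val = 0) : GeN v 0 g.val := by
  obtain ⟨k, h1, h2⟩ := h
  intro i j
  have hn : (n : ℤ) ≠ 0 := by
    have := i.pos
    omega
  have hk : k = 0 := by
    rw [hd] at h2
    rcases mul_eq_zero.1 h2.symm with h3 | h3
    · exact absurd h3 hn
    · exact h3
  rw [← hk]
  exact h1 i j

theorem det_conj (g h : GL (Fin n) F) : (h⁻¹ * g * h).det = g.det := by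
  rw [map_mul, map_mul, map_inv]
  rw [mul_right_comm, inv_mul_cancel, one_mul]

theorem inE_iff {v : F → ℤ} {g h : GL (Fin n) F} : InE v h g.val ↔ GeN v 0 (h⁻¹ * g * h).val := by
  unfold InE
  rw [Units.val_mul, Units.val_mul]

section

variable {v : F → ℤ} (hv : IsDV v)
include hv

/-- PROOF. Otherwise there is a basis of `M_n F` in `U`; its Gram matrix for the trace form has entries in `κ`, hence an
inverse with entries in `κ`, which are integral; so the orders of `h` and `h'` are equal. -/
theorem edge_one (κ : Subfield F) (hκ : ∀ x ∈ κ, Ge v 0 x) (U : Subgroup (GL (Fin n) F))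
    (hd : ∀ g ∈ U, g.val.det = 1) (htr : ∀ g ∈ U, g.val.trace ∈ κ) {h h' : GL (Fin n) F}
    (hfix : ∀ g ∈ U, Zd v (h⁻¹ * g * h)) (hfix' : ∀ g ∈ U, Zd v (h'⁻¹ * g * h')) (hne : ¬ Zd v (h⁻¹ * h')) :
    spG U ≠ ⊤ := by
  intro htop
  obtain ⟨ι, _, _, u, hu, h1, h2⟩ := exists_basis_of_span htop
  have hdet : ∀ g ∈ U, ∀ k : GL (Fin n) F, v (k⁻¹ * g * k).det.val = 0 := by
    intro g hg k
    rw [det_conj]
    have : g.det.val = 1 := hd g hg
    rw [this]
    exact hv.one
  have hE : ∀ a, InE v h (u a) ∧ InE v h' (u a) := by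
    intro a
    obtain ⟨g, hg, e⟩ := hu a
    rw [e, inE_iff, inE_iff]
    exact ⟨geN_of_zd (hfix g hg) (hdet g hg h), geN_of_zd (hfix' g hg) (hdet g hg h')⟩
  have hT : ∀ a b, (Matrix.of fun a b => (u a * u b).trace) a b ∈ κ := by
    intro a b
    obtain ⟨g, hg, e⟩ := hu a
    obtain ⟨k, hk, e'⟩ := hu b
    show (u a * u b).trace ∈ κ
    rw [e, e', ← Units.val_mul]
    exact htr _ (U.mul_mem hg hk)
  obtain ⟨S, hS, hSκ⟩ := inv_subfield κ _ hT (gram_inj u h1 h2)
  exact hne (zd_of_orders hv fun M hM => orders_of_gram hv u u h1 S hS (fun a b => hκ _ (hSκ a b))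
    (fun b => (hE b).1) (fun a => (hE a).2) M hM)

/-- rescaling of an element which fixes two vertices -/
theorem exists_rescale {g h h' : GL (Fin n) F} (h1 : Zd v (h⁻¹ * g * h)) (h2 : Zd v (h'⁻¹ * g * h')) :
    ∃ (c : F) (x : GL (Fin n) F), c ≠ 0 ∧ x.val = c • g.val ∧ InE v h x.val ∧ InE v h' x.val ∧ InE v h (x⁻¹).val := by
  obtain ⟨p, hp0, hp⟩ := hv.unif
  obtain ⟨k, h3, h4⟩ := h1
  obtain ⟨l, h5, h6⟩ := h2
  rw [det_conj] at h4 h6
  have hpk : ∀ m : ℕ, v (p ^ m) = m := by
    intro m
    induction m with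
    | zero => rw [pow_zero, hv.one]; rfl
    | succ m ih => rw [pow_succ, hv.mul _ _ (pow_ne_zero _ hp0) hp0, ih, hp]; push_cast; ring
  have hpz : ∀ m : ℤ, v (p ^ m) = m := by
    intro m
    cases m with
    | ofNat m => rw [Int.ofNat_eq_natCast, zpow_natCast, hpk]
    | negSucc m =>
      rw [zpow_negSucc, hv.inv (pow_ne_zero _ hp0), hpk]
      rw [Int.negSucc_eq]
      push_cast
      ring
  set c : F := p ^ (-k) with hc
  have hc0 : c ≠ 0 := zpow_ne_zero _ hp0
  set z : GL (Fin n) F := Matrix.GeneralLinearGroup.scalar (Fin n) (Units.mk0 c hc0) with hz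
  have hzv : z.val = c • (1 : Matrix (Fin n) (Fin n) F) := by
    rw [hz, Matrix.smul_one_eq_diagonal]
    rfl
  set x : GL (Fin n) F := z * g with hx
  have hxv : x.val = c • g.val := by
    rw [hx, Units.val_mul, hzv, Matrix.smul_mul, one_mul]
  have hGe : Ge v (-k) c := by
    intro _
    rw [hc, hpz]
  have hconj : ∀ y : GL (Fin n) F, (y⁻¹ * x * y).val = c • (y⁻¹ * g * y).val := by
    intro y
    rw [Units.val_mul, Units.val_mul, hxv, Matrix.mul_smul, Matrix.smul_mul, ← Units.val_mul, ← Units.val_mul]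
  have e1 : GeN v 0 (h⁻¹ * x * h).val := by
    rw [hconj]
    have := geN_smul hv hGe h3
    rwa [neg_add_cancel] at this
  have hdet : v x.det.val = 0 := by
    have e : x.det.val = c ^ n * g.det.val := by
      show x.val.det = c ^ n * g.val.det
      rw [hxv, Matrix.det_smul, Fintype.card_fin]
    have hcn : v (c ^ n) = - (n * k) := by
      rw [hc, ← zpow_natCast, ← _root_.zpow_mul, hpz]
      ring
    rw [e, hv.mul _ _ (pow_ne_zero _ hc0) g.det.ne_zero, hcn, h4]
    ring
  have e2 : GeN v 0 (h'⁻¹ * x * h').val := by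
    have hl : Zd v (h'⁻¹ * x * h') := by
      refine ⟨-k + l, ?_, ?_⟩
      · rw [hconj]
        exact geN_smul hv hGe h5
      · rw [det_conj, hdet]
        have : (n : ℤ) * k = n * l := by rw [← h4, ← h6]
        linarith [mul_add (n : ℤ) (-k) l]
    exact geN_of_zd hl (by rw [det_conj]; exact hdet)
  refine ⟨c, x, hc0, hxv, inE_iff.2 e1, inE_iff.2 e2, inE_iff.2 ?_⟩
  have e3 : h⁻¹ * x⁻¹ * h = (h⁻¹ * x * h)⁻¹ := by group
  rw [e3]
  have := geN_inv hv e1 (by rw [det_conj, hdet]; ring)
  rwa [neg_zero] at this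

/-- PROOF. Otherwise there is a basis `x a ∈ P` of `M_n F`; for `a ≠ b` the element `x a (x b)⁻¹` of `P` is not a scalar, so
`y g y⁻¹ = c g` with `c ≠ 1` for some `y ∈ P`, and its trace is zero. So the Gram matrix of the rescaled `x a` and their
inverses is `n` times the identity, and `n` is invertible in `κ`. -/
theorem edge_two (κ : Subfield F) (hκ : ∀ x ∈ κ, Ge v 0 x) (P : Subgroup (GL (Fin n) F))
    (hcomm : ∀ x ∈ P, ∀ y ∈ P, ∃ c : F, x.val * y.val = c • (y.val * x.val)) {h h' : GL (Fin n) F}
    (hfix : ∀ g ∈ P, Zd v (h⁻¹ * g * h)) (hfix' : ∀ g ∈ P, Zd v (h'⁻¹ * g * h')) (hne : ¬ Zd v (h⁻¹ * h')) :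
    spG P ≠ ⊤ := by
  intro htop
  obtain ⟨ι, _, _, u, hu, h1, h2⟩ := exists_basis_of_span htop
  choose g hg hgu using hu
  choose c x hc hx hxh hxh' hxi using fun a => exists_rescale hv (hfix (g a) (hg a)) (hfix' (g a) (hg a))
  have hxu : ∀ a, (x a).val = c a • u a := by
    intro a
    rw [hx, hgu]
  -- the rescaled basis
  have h3 : Submodule.span F (Set.range fun a => (x a).val) = ⊤ := by
    rw [eq_top_iff, ← h1, Submodule.span_le]
    rintro _ ⟨a, rfl⟩
    have : u a = (c a)⁻¹ • (x a).val := by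
      rw [hxu, smul_smul, inv_mul_cancel₀ (hc a), one_smul]
    rw [this]
    exact Submodule.smul_mem _ _ (Submodule.subset_span ⟨a, rfl⟩)
  -- traces
  have htr : ∀ a b, a ≠ b → ((x a).val * ((x b)⁻¹).val).trace = 0 := by
    intro a b hab
    -- `w = g a * (g b)⁻¹`
    have hw : g a * (g b)⁻¹ ∈ P := P.mul_mem (hg a) (P.inv_mem (hg b))
    have hns : ∃ y ∈ P, (g a * (g b)⁻¹).val * y.val ≠ y.val * (g a * (g b)⁻¹).val := by
      by_contra hcon
      push Not at hcon
      -- central, hence scalar
      have hall : ∀ M : Matrix (Fin n) (Fin n) F, (g a * (g b)⁻¹).val * M = M * (g a * (g b)⁻¹).val := by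
        intro M
        have hM : M ∈ spG P := by
          rw [htop]
          exact Submodule.mem_top
        refine Submodule.span_induction (p := fun M _ => (g a * (g b)⁻¹).val * M = M * (g a * (g b)⁻¹).val)
          ?_ ?_ ?_ ?_ hM
        · rintro _ ⟨y, hy, rfl⟩
          exact hcon y hy
        · rw [mul_zero, zero_mul]
        · intro p q _ _ hp hq
          rw [mul_add, add_mul, hp, hq]
        · intro r p _ hp
          rw [Matrix.mul_smul, Matrix.smul_mul, hp]
      have hsc : ∃ r : F, (g a * (g b)⁻¹).val = r • (1 : Matrix (Fin n) (Fin n) F) := by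
        have h4 : (g a * (g b)⁻¹).val ∈ Set.range (Matrix.scalar (Fin n) : F → Matrix (Fin n) (Fin n) F) := by
          rw [Matrix.mem_range_scalar_iff_commute_single']
          intro i j
          exact (hall _).symm
        obtain ⟨r, hr⟩ := h4
        refine ⟨r, ?_⟩
        rw [← hr, Matrix.smul_one_eq_diagonal]
        rfl
      obtain ⟨r, hr⟩ := hsc
      have h5 : (g a).val = r • (g b).val := by
        have e : (g a).val = (g a * (g b)⁻¹).val * (g b).val := by
          rw [← Units.val_mul, inv_mul_cancel_right]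
        rw [e, hr, Matrix.smul_mul, one_mul]
      rw [← hgu, ← hgu] at h5
      -- linear independence
      have h6 := Fintype.linearIndependent_iff.1 h2 (fun i => if i = a then 1 else if i = b then -r else 0) (by
        rw [Finset.sum_eq_add a b hab]
        · rw [if_pos rfl, if_neg (Ne.symm hab), if_pos rfl, one_smul, neg_smul, h5, add_neg_cancel]
        · intro i _ hi
          rw [if_neg hi.1, if_neg hi.2, zero_smul]
        · intro hn
          exact absurd (Finset.mem_univ _) hn
        · intro hn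
          exact absurd (Finset.mem_univ _) hn) a
      rw [if_pos rfl] at h6
      exact one_ne_zero h6
    obtain ⟨y, hy, hyn⟩ := hns
    obtain ⟨r, hr⟩ := hcomm _ hw y hy
    have hr1 : r ≠ 1 := by
      rintro rfl
      rw [one_smul] at hr
      exact hyn hr
    have h4 : (g a * (g b)⁻¹).val.trace = 0 := by
      have e1 : (g a * (g b)⁻¹).val = r • (y.val * (g a * (g b)⁻¹).val * (y⁻¹).val) := by
        rw [← Matrix.smul_mul, ← hr, Matrix.mul_assoc, ← Units.val_mul, mul_inv_cancel, Units.val_one, mul_one]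
      have e2 : (y.val * (g a * (g b)⁻¹).val * (y⁻¹).val).trace = (g a * (g b)⁻¹).val.trace := by
        rw [Matrix.trace_mul_comm, ← Matrix.mul_assoc, ← Units.val_mul, inv_mul_cancel, Units.val_one, one_mul]
      have e3 := congrArg Matrix.trace e1
      rw [Matrix.trace_smul, e2, smul_eq_mul] at e3
      have e4 : (1 - r) * (g a * (g b)⁻¹).val.trace = 0 := by
        rw [sub_mul, one_mul, ← e3, sub_self]
      rcases mul_eq_zero.1 e4 with e5 | e5
      · exact absurd (sub_eq_zero.1 e5).symm hr1
      · exact e5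
    have e5 : ((x b)⁻¹).val = (c b)⁻¹ • ((g b)⁻¹).val := by
      have e6 : (x b).val * ((c b)⁻¹ • ((g b)⁻¹).val) = 1 := by
        rw [Matrix.mul_smul, hx b, Matrix.smul_mul, smul_smul, inv_mul_cancel₀ (hc b), one_smul, ← Units.val_mul,
          mul_inv_cancel, Units.val_one]
      calc ((x b)⁻¹).val = ((x b)⁻¹).val * ((x b).val * ((c b)⁻¹ • ((g b)⁻¹).val)) := by rw [e6, mul_one]
        _ = _ := by rw [← mul_assoc, ← Units.val_mul, inv_mul_cancel, Units.val_one, one_mul]
    rw [e5, hx a, Matrix.mul_smul, Matrix.smul_mul, Matrix.trace_smul, Matrix.trace_smul, ← Units.val_mul, h4, smul_zero,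
      smul_zero]
  have htr' : ∀ a, ((x a).val * ((x a)⁻¹).val).trace = (n : F) := by
    intro a
    rw [← Units.val_mul, mul_inv_cancel, Units.val_one, Matrix.trace_one, Fintype.card_fin]
  have hG : (Matrix.of fun a b => ((x a).val * ((x b)⁻¹).val).trace) = (n : F) • (1 : Matrix ι ι F) := by
    ext a b
    rw [Matrix.smul_apply, Matrix.one_apply, smul_eq_mul, Matrix.of_apply]
    split_ifs with hab
    · rw [hab, htr', mul_one]
    · rw [htr a b hab, mul_zero]
  -- `n ≠ 0` in `F`
  have hn : (n : F) ≠ 0 := by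
    intro hn0
    have hι : Nonempty ι := by
      by_contra hemp
      rw [not_nonempty_iff] at hemp
      have : (1 : Matrix (Fin n) (Fin n) F) ∈ Submodule.span F (Set.range u) := by
        rw [h1]
        exact Submodule.mem_top
      rw [Set.range_eq_empty, Submodule.span_empty, Submodule.mem_bot] at this
      refine hne ?_
      cases n with
      | zero => exact ⟨0, fun i => i.elim0, by
          have e : (h⁻¹ * h').det.val = 1 := Matrix.det_fin_zero
          rw [e, hv.one]; simp⟩
      | succ m =>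
        have := congrFun (congrFun this 0) 0
        rw [Matrix.one_apply_eq] at this
        exact absurd this one_ne_zero
    obtain ⟨b⟩ := hι
    have h4 : ((x b)⁻¹).val = 0 := by
      refine Matrix.ext_iff_trace_mul_left.2 fun M => ?_
      rw [mul_zero, Matrix.trace_zero]
      have hM : M ∈ Submodule.span F (Set.range fun a => (x a).val) := by
        rw [h3]
        exact Submodule.mem_top
      refine Submodule.span_induction (p := fun M _ => (M * ((x b)⁻¹).val).trace = 0) ?_ ?_ ?_ ?_ hM
      · rintro _ ⟨a, rfl⟩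
        show ((x a).val * ((x b)⁻¹).val).trace = 0
        by_cases hab : a = b
        · rw [hab, htr', hn0]
        · exact htr a b hab
      · rw [zero_mul, Matrix.trace_zero]
      · intro p q _ _ hp hq
        rw [add_mul, Matrix.trace_add, hp, hq, add_zero]
      · intro r p _ hp
        rw [Matrix.smul_mul, Matrix.trace_smul, hp, smul_zero]
    have h5 : (1 : Matrix (Fin n) (Fin n) F) = 0 := by
      rw [← Units.val_one, ← mul_inv_cancel (x b), Units.val_mul, h4, mul_zero]
    cases n with
    | zero =>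
      exact hne ⟨0, fun i => i.elim0, by
        have e : (h⁻¹ * h').det.val = 1 := Matrix.det_fin_zero
        rw [e, hv.one]; simp⟩
    | succ m =>
      have := congrFun (congrFun h5 0) 0
      rw [Matrix.one_apply_eq] at this
      exact absurd this one_ne_zero
  refine hne (zd_of_orders hv fun M hM => orders_of_gram hv (fun a => (x a).val) (fun a => ((x a)⁻¹).val) h3
    ((n : F)⁻¹ • (1 : Matrix ι ι F)) ?_ ?_ hxi hxh' M hM)
  · rw [hG, Matrix.smul_mul, Matrix.mul_smul, mul_one, smul_smul, mul_inv_cancel₀ hn, one_smul]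
  · intro a b
    rw [Matrix.smul_apply, Matrix.one_apply, smul_eq_mul]
    refine hκ _ (κ.mul_mem (κ.inv_mem (natCast_mem κ n)) ?_)
    split_ifs
    · exact κ.one_mem
    · exact κ.zero_mem

end

end Pool.Agent.H10.RA
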