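import Pool.Agent.H10.RA.Val

/-!
# H10 RA, Gram: an order is spanned by elements with unimodular Gram matrix
-/

set_option autoImplicit false

namespace Pool.Agent.H10.RA

open Matrix Pool.Agent.H54.TT

variable {F : Type} [Field F] {n : ℕ}

/-- if the Gram matrix of `u` and `w` (trace form) has an integral inverse, then every element of the order of `h` is an
integral combination of the `u a`, hence lies in the order of `h'` -/
theorem orders_of_gram {v : F → ℤ} (hv : IsDV v) {h h' : GL (Fin n) F} {ι : Type*} [Fintype ι] [DecidableEq ι]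
    (u w : ι → Matrix (Fin n) (Fin n) F) (hspan : Submodule.span F (Set.range u) = ⊤) (S : Matrix ι ι F)
    (hS : (Matrix.of fun a b => (u a * w b).trace) * S = 1) (hSi : ∀ a b, Ge v 0 (S a b))
    (hw : ∀ b, InE v h (w b)) (hu : ∀ a, InE v h' (u a)) (M : Matrix (Fin n) (Fin n) F) (hM : InE v h M) :
    InE v h' M := by
  have h1 : M ∈ Submodule.span F (Set.range u) := by
    rw [hspan]
    exact Submodule.mem_top
  obtain ⟨c, hc⟩ := (Submodule.mem_span_range_iff_exists_fun F).1 h1
  -- the coefficients are integral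
  have h2 : ∀ b, (M * w b).trace = ∑ a, c a * (u a * w b).trace := by
    intro b
    rw [← hc, Matrix.sum_mul, Matrix.trace_sum]
    refine Finset.sum_congr rfl fun a _ => ?_
    rw [Matrix.smul_mul, Matrix.trace_smul, smul_eq_mul]
  have h3 : ∀ a, c a = ∑ b, (M * w b).trace * S b a := by
    have e : Matrix.vecMul (Matrix.vecMul c (Matrix.of fun a b => (u a * w b).trace)) S = c := by
      rw [Matrix.vecMul_vecMul, hS, Matrix.vecMul_one]
    intro a
    have e1 := congrFun e a
    rw [← e1]
    show ∑ b, (Matrix.vecMul c (Matrix.of fun a b => (u a * w b).trace)) b * S b a = _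
    refine Finset.sum_congr rfl fun b _ => ?_
    rw [h2]
    rfl
  have h4 : ∀ a, Ge v 0 (c a) := by
    intro a
    rw [h3 a]
    refine ge_sum hv _ fun b _ => ?_
    have h5 := ge_mul hv (InE.trace hv (InE.mul hv hM (hw b))) (hSi b a)
    rwa [add_zero] at h5
  rw [← hc]
  exact InE.sum hv _ fun a _ => InE.smul hv (h4 a) (hu a)

/-- the trace form is nondegenerate -/
theorem gram_inj {ι : Type*} [Fintype ι] [DecidableEq ι] (u : ι → Matrix (Fin n) (Fin n) F)
    (hspan : Submodule.span F (Set.range u) = ⊤) (hli : LinearIndependent F u) :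
    IsUnit (Matrix.of fun a b => (u a * u b).trace) := by
  rw [← Matrix.mulVec_injective_iff_isUnit]
  refine (injective_iff_map_eq_zero' (Matrix.mulVecLin (Matrix.of fun a b => (u a * u b).trace))).2 ?_
  intro x
  constructor
  · intro hx
    have h1 : ∀ a, (u a * ∑ b, x b • u b).trace = 0 := by
      intro a
      have h0 : ∑ b, (u a * u b).trace * x b = 0 := congrFun hx a
      rw [Matrix.mul_sum, Matrix.trace_sum, ← h0]
      refine Finset.sum_congr rfl fun b _ => ?_
      rw [Matrix.mul_smul, Matrix.trace_smul, smul_eq_mul, mul_comm]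
    have h2 : ∀ M : Matrix (Fin n) (Fin n) F, (M * ∑ b, x b • u b).trace = 0 := by
      intro M
      have hM : M ∈ Submodule.span F (Set.range u) := by
        rw [hspan]
        exact Submodule.mem_top
      refine Submodule.span_induction (p := fun M _ => (M * ∑ b, x b • u b).trace = 0) ?_ ?_ ?_ ?_ hM
      · rintro _ ⟨a, rfl⟩
        exact h1 a
      · rw [zero_mul, Matrix.trace_zero]
      · intro p q _ _ hp hq
        rw [add_mul, Matrix.trace_add, hp, hq, add_zero]
      · intro c p _ hp
        rw [Matrix.smul_mul, Matrix.trace_smul, hp, smul_zero]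
    have h3 : ∑ b, x b • u b = 0 := by
      refine Matrix.ext_iff_trace_mul_left.2 fun M => ?_
      rw [h2 M, mul_zero, Matrix.trace_zero]
    funext a
    exact (Fintype.linearIndependent_iff.1 hli) x h3 a
  · rintro rfl
    rw [map_zero]

/-- the inverse of a matrix over a subfield -/
theorem inv_subfield {ι : Type*} [Fintype ι] [DecidableEq ι] (κ : Subfield F) (T : Matrix ι ι F) (hT : ∀ a b, T a b ∈ κ)
    (hu : IsUnit T) : ∃ S : Matrix ι ι F, T * S = 1 ∧ ∀ a b, S a b ∈ κ := by
  set T' : Matrix ι ι κ := Matrix.of fun a b => ⟨T a b, hT a b⟩ with hT'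
  have h1 : T'.map κ.subtype = T := by
    ext a b
    rfl
  have h2 : κ.subtype T'.det = T.det := by
    rw [RingHom.map_det, RingHom.mapMatrix_apply, h1]
  have h3 : T.det ≠ 0 := ((Matrix.isUnit_iff_isUnit_det _).1 hu).ne_zero
  have h4 : IsUnit T'.det := by
    rw [isUnit_iff_ne_zero]
    intro h
    rw [h, map_zero] at h2
    exact h3 h2.symm
  refine ⟨T'⁻¹.map κ.subtype, ?_, fun a b => (T'⁻¹ a b).2⟩
  have h5 : T' * T'⁻¹ = 1 := Matrix.mul_nonsing_inv _ h4
  have h6 := congrArg (fun M => κ.subtype.mapMatrix M) h5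
  simp only [map_mul, map_one] at h6
  rw [RingHom.mapMatrix_apply, RingHom.mapMatrix_apply, h1] at h6
  exact h6

/-- a linearly independent family of elements of a spanning set -/
theorem exists_basis_of_span {s : Set (Matrix (Fin n) (Fin n) F)} (hs : Submodule.span F s = ⊤) :
    ∃ (ι : Type) (_ : Fintype ι) (_ : DecidableEq ι) (u : ι → Matrix (Fin n) (Fin n) F), (∀ a, u a ∈ s) ∧
      Submodule.span F (Set.range u) = ⊤ ∧ LinearIndependent F u := by
  classical
  obtain ⟨b, hb, h1, h2⟩ := exists_linearIndependent F s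
  have : Fintype b := h2.setFinite.fintype
  refine ⟨b, this, Classical.decEq _, fun x => x.1, fun x => hb x.2, ?_, h2⟩
  rw [Subtype.range_coe, h1, hs]

end Pool.Agent.H10.RA
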