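import Pool.Agent.H10.RA.Bdd
import Pool.Agent.H10.RA.Abl
import Pool.Agent.H76.LN.Defs

/-!
# H10 RA, Has: rigidity for subgroups of `PS n F` (the statements `has_bdd` and `has_abl` of `H76/LN/Stm`)
-/

set_option autoImplicit false

namespace Pool.Agent.H10.RA

open Pool.Agent.H98.FJ Pool.Agent.H54.TT Pool.Agent.H76.GT Pool.Agent.H2.WN Pool.Agent.H76.LN

variable {F : Type} [Field F] {n : ℕ}

section

variable {v : F → ℤ} (hv : IsDV v)

theorem gov_zd {g : GL (Fin n) F} (h : g ∈ GOv n hv) : Zd v g := ⟨0, h.1, by rw [h.2, mul_zero]⟩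

/-- the class of a lattice -/
def lv (x : Lt n hv) : Vn n hv :=
  Quotient.liftOn' x (fun a => (a : Vn n hv)) (by
    intro a b h
    exact (vn_eq hv).2 (gov_zd hv (QuotientGroup.leftRel_apply.1 h)))

theorem lv_mk (a : GL (Fin n) F) : lv hv (a : Lt n hv) = (a : Vn n hv) := rfl

theorem lv_surj : Function.Surjective (lv (n := n) hv) := by
  intro y
  obtain ⟨a, rfl⟩ := QuotientGroup.mk_surjective y
  exact ⟨(a : Lt n hv), rfl⟩

theorem lv_smul (g : PS n F) (x : Lt n hv) : lv hv (g • x) = psg n F g • lv hv x := by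
  obtain ⟨a, rfl⟩ := ps_surj g
  obtain ⟨b, rfl⟩ := QuotientGroup.mk_surjective x
  rfl

/-- an element of determinant one which fixes the class fixes the lattice -/
theorem fix_of_lv (g : PS n F) (x : Lt n hv) (h : psg n F g • lv hv x = lv hv x) : g • x = x := by
  obtain ⟨a, rfl⟩ := ps_surj g
  obtain ⟨b, rfl⟩ := QuotientGroup.mk_surjective x
  have h1 : sg n F a • (b : Vn n hv) = (b : Vn n hv) := h
  rw [vn_fix] at h1
  have hd : v (b⁻¹ * sg n F a * b).det.val = 0 := by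
    rw [det_conj]
    have : (sg n F a).det.val = 1 := sg_det a
    rw [this]
    exact hv.one
  have h2 : b⁻¹ * sg n F a * b ∈ GOv n hv := ⟨geN_of_zd h1 hd, hd⟩
  show ((sg n F a * b : GL (Fin n) F) : Lt n hv) = (b : Lt n hv)
  rw [lt_eq]
  have h3 := (GOv n hv).inv_mem h2
  have e : (b⁻¹ * sg n F a * b)⁻¹ = (sg n F a * b)⁻¹ * b := by group
  rwa [e] at h3

end

/-- the homomorphism of a subgroup of `PS n F` to `PG n F` -/
def sG (G : Subgroup (PS n F)) : G →* PG n F := (psg n F).comp G.subtype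

theorem sG_inj (G : Subgroup (PS n F)) : Function.Injective (sG G) := fun _ _ h => Subtype.ext (psg_inj h)

theorem sG_det (G : Subgroup (PS n F)) (g : G) : ∃ a : GL (Fin n) F, a.val.det = 1 ∧ pr n F a = sG G g := by
  obtain ⟨a, ha⟩ := ps_surj g.1
  exact ⟨sg n F a, sg_det a, by rw [← psg_ps, ha]; rfl⟩

/-- the form of NA with `finrank` -/
theorem na_of {C : (G : Type) → [Group G] → Prop}
    (hna : ∀ A : Sp n F, ((1 : Mn n F) ∈ A.sub ∧ ∀ x ∈ A.sub, ∀ y ∈ A.sub, x * y ∈ A.sub) →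
      Module.finrank F A.sub ≠ 1 → A.sub ≠ ⊤ → C (MulAction.stabilizer (PG n F) A)) : NA C n F := by
  intro A h1 hm hx ht
  refine hna A ⟨h1, hm⟩ ?_ ht
  intro hr
  obtain ⟨x, hxA, hx⟩ := hx
  have h10 : (⟨1, h1⟩ : A.sub) ≠ 0 := by
    intro h0
    have h2 : (1 : Mn n F) = 0 := congrArg Subtype.val h0
    refine hx 0 ?_
    rw [zero_smul, ← mul_one x, h2, mul_zero]
  obtain ⟨c, hc⟩ := (finrank_eq_one_iff_of_nonzero' _ h10).1 hr ⟨x, hxA⟩
  exact hx c (congrArg Subtype.val hc).symm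

/-- RIGIDITY: bounded subgroups -/
theorem has_bdd {C : (G : Type) → [Group G] → Prop} (hC : Inherits C) {ι : Type} {v : ι → F → ℤ} (h : PlaceSys F ι v)
    (hna : ∀ A : Sp n F, ((1 : Mn n F) ∈ A.sub ∧ ∀ x ∈ A.sub, ∀ y ∈ A.sub, x * y ∈ A.sub) →
      Module.finrank F A.sub ≠ 1 → A.sub ≠ ⊤ → C (MulAction.stabilizer (PG n F) A))
    (s : Finset ι) (G : Subgroup (PS n F)) (hG : ∀ i, i ∉ s → ∃ x : Lt n (h.dv i), ∀ g ∈ G, g • x = x)
    (hst : ∀ x : Tup n h.dv s, C (MulAction.stabilizer G x)) :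
    HasObj C (BddGrp (Tup n h.dv s) (⊥ : Subgroup G)) (n ^ 2) := by
  refine hasObj_bdd hC (na_of hna) h (sG G) (sG_inj G) (sG_det G) (s : Set ι) ?_ ?_
    (fun x i => lv (h.dv i.1) (x ⟨i.1, Finset.mem_coe.1 i.2⟩)) ?_
  · intro i hi
    obtain ⟨x, hx⟩ := hG i fun hc => hi (Finset.mem_coe.2 hc)
    refine ⟨lv (h.dv i) x, fun g => ?_⟩
    have := lv_smul (h.dv i) g.1 x
    rw [hx g.1 g.2] at this
    exact this.symm
  · intro t
    choose x hx using fun i : (s : Set ι) => lv_surj (h.dv i.1) (t i)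
    have hle : fixT h.dv (sG G) (s : Set ι) t ≤
        MulAction.stabilizer G (fun i : s => x ⟨i.1, Finset.mem_coe.2 i.2⟩ : Tup n h.dv s) := by
      intro g hg
      rw [MulAction.mem_stabilizer_iff]
      funext i
      show g.1 • x ⟨i.1, Finset.mem_coe.2 i.2⟩ = x ⟨i.1, Finset.mem_coe.2 i.2⟩
      refine fix_of_lv (h.dv i.1) g.1 _ ?_
      rw [hx]
      exact hg ⟨i.1, Finset.mem_coe.2 i.2⟩
    exact hC.of_injective (Subgroup.inclusion hle) (Subgroup.inclusion_injective hle) (hst _)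
  · intro g x i
    exact lv_smul (h.dv i.1) g.1 _

/-- RIGIDITY: abelian subgroups -/
theorem has_abl {C : (G : Type) → [Group G] → Prop} (hC : Inherits C) {ι : Type} {v : ι → F → ℤ} (h : PlaceSys F ι v)
    (hna : ∀ A : Sp n F, ((1 : Mn n F) ∈ A.sub ∧ ∀ x ∈ A.sub, ∀ y ∈ A.sub, x * y ∈ A.sub) →
      Module.finrank F A.sub ≠ 1 → A.sub ≠ ⊤ → C (MulAction.stabilizer (PG n F) A))
    (s : Finset ι) (G : Subgroup (PS n F)) :
    HasObj C (AblGrp (Tup n h.dv s) (⊥ : Subgroup G) n) (n ^ 2) :=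
  hasObj_abl hC (na_of hna) (sG G) (sG_inj G) (sG_det G)

end Pool.Agent.H10.RA
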