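import Pool.Agent.H10.RA.Pg
import Pool.Agent.H76.GT.PlD
import Pool.Agent.H2.WN.Defs
import Pool.Agent.H65.NT.Ring

/-!
# H10 RA, Obj: the objects attached to subgroups of the special linear group (form `HasObj`)

`G` is a group with an injective homomorphism `ρ` to `GL_n(F)` with determinant one. Subgroups which fix a vertex everywhere:
the object is the algebra spanned by the subgroup, or, if this is the whole matrix algebra, the tuple of the vertices fixed by
the subgroup (which is unique).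
-/

set_option autoImplicit false

namespace Pool.Agent.H10.RA

open Pool.Agent.H54.TT Pool.Agent.H98.FJ Pool.Agent.H76.GT Pool.Agent.H2.WN

variable {F : Type} [Field F] {n : ℕ}

/-! ### spans -/

theorem spG_conj (g : GL (Fin n) F) (P : Subgroup (GL (Fin n) F)) :
    spG (P.map (MulAut.conj g).toMonoidHom) = cjS g (spG P) := by
  have key : ∀ (g : GL (Fin n) F) (P : Subgroup (GL (Fin n) F)), spG (P.map (MulAut.conj g).toMonoidHom) ≤ cjS g (spG P) := by
    intro g P
    unfold spG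
    rw [Submodule.span_le]
    rintro _ ⟨_, ⟨k, hk, rfl⟩, rfl⟩
    show cj g⁻¹ _ ∈ spG P
    have e : cj g⁻¹ ((MulAut.conj g).toMonoidHom k).val = k.val := by
      show (g⁻¹).val * (g * k * g⁻¹).val * ((g⁻¹)⁻¹).val = k.val
      rw [← Units.val_mul, ← Units.val_mul]
      congr 1
      group
    rw [e]
    exact mem_spG hk
  refine le_antisymm (key g P) ?_
  intro x hx
  have h1 : cj g⁻¹ x ∈ spG P := hx
  -- apply `key` to the inverse
  have h2 := key g⁻¹ (P.map (MulAut.conj g).toMonoidHom)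
  have e : (P.map (MulAut.conj g).toMonoidHom).map (MulAut.conj g⁻¹).toMonoidHom = P := by
    rw [Subgroup.map_map]
    have : (MulAut.conj g⁻¹).toMonoidHom.comp (MulAut.conj g).toMonoidHom = MonoidHom.id (GL (Fin n) F) := by
      ext1 k
      show g⁻¹ * (g * k * g⁻¹) * (g⁻¹)⁻¹ = k
      group
    rw [this, Subgroup.map_id]
  rw [e] at h2
  have h3 := h2 h1
  have h4 : cj (g⁻¹)⁻¹ (cj g⁻¹ x) ∈ spG (P.map (MulAut.conj g).toMonoidHom) := h3
  rw [← cj_mul, inv_inv, mul_inv_cancel, cj_one] at h4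
  exact h4

theorem cjS_top (g : GL (Fin n) F) : cjS g (⊤ : Submodule F (Mn n F)) = ⊤ := by
  rw [eq_top_iff]
  intro x _
  exact Submodule.mem_top

theorem cjS_cjS (g h : GL (Fin n) F) (A : Submodule F (Mn n F)) : cjS g (cjS h A) = cjS (g * h) A := by
  refine Submodule.ext fun x => ?_
  rw [mem_cjS, mem_cjS, mem_cjS, mul_inv_rev, cj_mul]

theorem cjS_one (A : Submodule F (Mn n F)) : cjS 1 A = A := by
  refine Submodule.ext fun x => ?_
  rw [mem_cjS, inv_one, cj_one]

theorem cjS_eq_top {g : GL (Fin n) F} {A : Submodule F (Mn n F)} : cjS g A = ⊤ ↔ A = ⊤ := by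
  constructor
  · intro h
    have := congrArg (cjS g⁻¹) h
    rwa [cjS_cjS, inv_mul_cancel, cjS_one, cjS_top] at this
  · rintro rfl
    exact cjS_top g

theorem finrank_le (A : Submodule F (Mn n F)) : Module.finrank F A ≤ n ^ 2 := by
  have h1 := Submodule.finrank_le A
  have h2 : Module.finrank F (Mn n F) = n ^ 2 := by
    rw [Module.finrank_matrix, Fintype.card_fin, Module.finrank_self, mul_one, pow_two]
  rwa [h2] at h1

/-- the trace of an element of determinant one which fixes a vertex at every place is a constant -/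
theorem trace_mem_kap {ι : Type} {v : ι → F → ℤ} (h : PlaceSys F ι v) {g : GL (Fin n) F} (hd : g.val.det = 1)
    (hg : ∀ i, ∃ x : Vn n (h.dv i), g • x = x) : g.val.trace ∈ kap h := by
  intro i
  obtain ⟨x, hx⟩ := hg i
  obtain ⟨a, rfl⟩ := QuotientGroup.mk_surjective x
  have h1 := (vn_fix (h.dv i)).1 hx
  have h2 : v i (a⁻¹ * g * a).det.val = 0 := by
    rw [det_conj]
    have : g.det.val = 1 := hd
    rw [this, (h.dv i).one]
  exact InE.trace (h.dv i) (inE_iff.2 (geN_of_zd h1 h2))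

/-- uniqueness of the fixed vertex -/
theorem vertex_unique {ι : Type} {v : ι → F → ℤ} (h : PlaceSys F ι v) {U : Subgroup (GL (Fin n) F)}
    (hd : ∀ g ∈ U, g.val.det = 1) (hg : ∀ i, ∃ x : Vn n (h.dv i), ∀ g ∈ U, g • x = x) (htop : spG U = ⊤) (i : ι)
    {x y : Vn n (h.dv i)} (hx : ∀ g ∈ U, g • x = x) (hy : ∀ g ∈ U, g • y = y) : x = y := by
  obtain ⟨a, rfl⟩ := QuotientGroup.mk_surjective x
  obtain ⟨b, rfl⟩ := QuotientGroup.mk_surjective y
  by_contra hne
  refine edge_one (h.dv i) (kap h) (fun x hx => hx i) U hd (fun g hgU => trace_mem_kap h (hd g hgU) fun j => ?_)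
    (h := a) (h' := b) (fun g hgU => (vn_fix (h.dv i)).1 (hx g hgU)) (fun g hgU => (vn_fix (h.dv i)).1 (hy g hgU))
    (fun hc => hne ((vn_eq (h.dv i)).2 hc)) htop
  obtain ⟨z, hz⟩ := hg j
  exact ⟨z, hz g hgU⟩

/-! ### the normaliser in `G` -/

/-- the statement on normalisers of subalgebras -/
def NA (C : (G : Type) → [Group G] → Prop) (n : ℕ) (F : Type) [Field F] : Prop :=
  ∀ A : Sp n F, (1 : Mn n F) ∈ A.sub → (∀ x ∈ A.sub, ∀ y ∈ A.sub, x * y ∈ A.sub) →
    (∃ x ∈ A.sub, ∀ c : F, x ≠ c • (1 : Mn n F)) → A.sub ≠ ⊤ → C (MulAction.stabilizer (PG n F) A)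

/-- the elements of determinant one over the image of `H` -/
def lft {G : Type} [Group G] (σ : G →* PG n F) (H : Subgroup G) : Subgroup (GL (Fin n) F) where
  carrier := {a | a.val.det = 1 ∧ ∃ g ∈ H, pr n F a = σ g}
  mul_mem' := by
    rintro a b ⟨ha, g, hg, h1⟩ ⟨hb, k, hk, h2⟩
    refine ⟨?_, g * k, H.mul_mem hg hk, ?_⟩
    · rw [Units.val_mul, Matrix.det_mul, ha, hb, one_mul]
    · rw [map_mul, map_mul, h1, h2]
  one_mem' := ⟨by rw [Units.val_one, Matrix.det_one], 1, H.one_mem, by rw [map_one, map_one]⟩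
  inv_mem' := by
    rintro a ⟨ha, g, hg, h1⟩
    refine ⟨?_, g⁻¹, H.inv_mem hg, by rw [map_inv, map_inv, h1]⟩
    have h2 : (a * a⁻¹).val.det = 1 := by rw [mul_inv_cancel, Units.val_one, Matrix.det_one]
    rw [Units.val_mul, Matrix.det_mul, ha, one_mul] at h2
    exact h2

theorem mem_lft {G : Type} [Group G] {σ : G →* PG n F} {H : Subgroup G} {a : GL (Fin n) F} :
    a ∈ lft σ H ↔ a.val.det = 1 ∧ ∃ g ∈ H, pr n F a = σ g := Iff.rfl

theorem lft_mono {G : Type} [Group G] (σ : G →* PG n F) {H H' : Subgroup G} (h : H ≤ H') : lft σ H ≤ lft σ H' :=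
  fun _ ⟨ha, g, hg, e⟩ => ⟨ha, g, h hg, e⟩

theorem lft_conj {G : Type} [Group G] (σ : G →* PG n F) (H : Subgroup G) (g : G) {a : GL (Fin n) F}
    (ha : pr n F a = σ g) :
    lft σ (H.map (MulAut.conj g).toMonoidHom) = (lft σ H).map (MulAut.conj a).toMonoidHom := by
  ext b
  constructor
  · rintro ⟨hb, _, ⟨k, hk, rfl⟩, h1⟩
    refine ⟨a⁻¹ * b * a, ⟨?_, k, hk, ?_⟩, ?_⟩
    · show (a⁻¹ * b * a).det.val = 1
      rw [det_conj]
      exact hb
    · have h2 : pr n F b = σ (g * k * g⁻¹) := h1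
      rw [map_mul, map_mul, map_inv, h2, ha, map_mul, map_mul, map_inv]
      group
    · show a * (a⁻¹ * b * a) * a⁻¹ = b
      group
  · rintro ⟨c, ⟨hc, k, hk, h1⟩, rfl⟩
    refine ⟨?_, g * k * g⁻¹, ⟨k, hk, rfl⟩, ?_⟩
    · show (a * c * a⁻¹).det.val = 1
      have := det_conj c a⁻¹
      rw [inv_inv] at this
      rw [this]
      exact hc
    · show pr n F (a * c * a⁻¹) = σ (g * k * g⁻¹)
      rw [map_mul, map_mul, map_inv, h1, ha, map_mul, map_mul, map_inv]

theorem mem_of_pg {C : (G : Type) → [Group G] → Prop} (hC : Inherits C) {G : Type} [Group G] (σ : G →* PG n F)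
    (hσ : Function.Injective σ) (Q : Subgroup (PG n F)) (hQ : C Q) (K : Subgroup G) (hK : ∀ g ∈ K, σ g ∈ Q) :
    C K := by
  let p : K →* Q := (σ.comp K.subtype).codRestrict Q fun g => hK g.1 g.2
  refine hC.of_injective p ?_ hQ
  intro a b hab
  have h1 : σ a.1 = σ b.1 := congrArg Subtype.val hab
  exact Subtype.ext (hσ h1)

end Pool.Agent.H10.RA
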