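import Pool.Agent.H10.RA.Edge

/-!
# H10 RA, Pg: the projective linear group of degree n, its action on the classes of lattices and on the subspaces of the
matrix algebra
-/

set_option autoImplicit false

namespace Pool.Agent.H10.RA

open Pool.Agent.H54.TT

/-- `n` by `n` matrices -/
abbrev Mn (n : ℕ) (F : Type) : Type := Matrix (Fin n) (Fin n) F

/-- the projective linear group of degree `n` -/
abbrev PG (n : ℕ) (F : Type) [Field F] : Type := GL (Fin n) F ⧸ Subgroup.center (GL (Fin n) F)

/-- the quotient map -/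
def pr (n : ℕ) (F : Type) [Field F] : GL (Fin n) F →* PG n F := QuotientGroup.mk' _

variable {F : Type} [Field F] {n : ℕ}

theorem pr_surj : Function.Surjective (pr n F) := QuotientGroup.mk'_surjective _

/-- the central elements are the scalar matrices -/
theorem mem_center_iff {g : GL (Fin n) F} : g ∈ Subgroup.center (GL (Fin n) F) ↔ ∃ c : F, g.val = c • (1 : Mn n F) := by
  rw [Matrix.GeneralLinearGroup.mem_center_iff_val_mem_range_scalar]
  constructor
  · rintro ⟨c, hc⟩
    refine ⟨c, ?_⟩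
    rw [← hc, Matrix.smul_one_eq_diagonal]
    rfl
  · rintro ⟨c, hc⟩
    refine ⟨c, ?_⟩
    rw [hc, Matrix.smul_one_eq_diagonal]
    rfl

theorem pr_eq_one {g : GL (Fin n) F} : pr n F g = 1 ↔ ∃ c : F, g.val = c • (1 : Mn n F) := by
  unfold pr
  rw [QuotientGroup.mk'_apply, QuotientGroup.eq_one_iff, mem_center_iff]

theorem pr_eq {g h : GL (Fin n) F} : pr n F g = pr n F h ↔ ∃ c : F, (g⁻¹ * h).val = c • (1 : Mn n F) := by
  rw [← pr_eq_one, map_mul, map_inv, inv_mul_eq_one]

section

variable {v : F → ℤ} (hv : IsDV v)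

/-- the stabiliser of the base vertex -/
def Zn (n : ℕ) {v : F → ℤ} (hv : IsDV v) : Subgroup (GL (Fin n) F) where
  carrier := {g | Zd v g}
  mul_mem' := fun hg hh => Zd.mul hv hg hh
  one_mem' := Zd.one hv
  inv_mem' := fun h => Zd.inv hv h

/-- the vertices: homothety classes of lattices -/
abbrev Vn (n : ℕ) {v : F → ℤ} (hv : IsDV v) : Type := GL (Fin n) F ⧸ Zn n hv

theorem vn_eq {g h : GL (Fin n) F} : ((g : Vn n hv) = (h : Vn n hv)) ↔ Zd v (g⁻¹ * h) := QuotientGroup.eq

/-- `g` fixes the vertex of `h` -/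
theorem vn_fix {g h : GL (Fin n) F} : g • (h : Vn n hv) = (h : Vn n hv) ↔ Zd v (h⁻¹ * g * h) := by
  have e : g • (h : Vn n hv) = ((g * h : GL (Fin n) F) : Vn n hv) := rfl
  rw [e, vn_eq]
  constructor
  · intro h1
    have := Zd.inv hv h1
    have e1 : ((g * h)⁻¹ * h)⁻¹ = h⁻¹ * g * h := by group
    rwa [e1] at this
  · intro h1
    have := Zd.inv hv h1
    have e1 : (h⁻¹ * g * h)⁻¹ = (g * h)⁻¹ * h := by group
    rwa [e1] at this

include hv in
theorem zd_scalar {g : GL (Fin n) F} {c : F} (h : g.val = c • (1 : Mn n F)) : Zd v g := by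
  have hdet : g.det.val = c ^ n := by
    show g.val.det = c ^ n
    rw [h, Matrix.det_smul, Matrix.det_one, Fintype.card_fin, mul_one]
  refine ⟨v c, ?_, ?_⟩
  · intro i j
    rw [h, Matrix.smul_apply, Matrix.one_apply, smul_eq_mul]
    split_ifs
    · rw [mul_one]
      exact fun _ => le_rfl
    · rw [mul_zero]
      exact ge_zero hv _
  · cases n with
    | zero =>
      rw [hdet, pow_zero, hv.one]
      simp
    | succ m =>
      have hc0 : c ≠ 0 := by
        rintro rfl
        exact g.det.ne_zero (by rw [hdet, zero_pow (Nat.succ_ne_zero m)])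
      rw [hdet]
      have : ∀ k : ℕ, v (c ^ k) = k * v c := by
        intro k
        induction k with
        | zero => rw [pow_zero, hv.one]; simp
        | succ k ih => rw [pow_succ, hv.mul _ _ (pow_ne_zero _ hc0) hc0, ih]; push_cast; ring
      rw [this]

/-- scalar matrices act trivially -/
theorem smul_of_scalar {g : GL (Fin n) F} {c : F} (h : g.val = c • (1 : Mn n F)) (x : Vn n hv) : g • x = x := by
  obtain ⟨y, rfl⟩ := QuotientGroup.mk_surjective x
  rw [vn_fix]
  have h1 : y⁻¹ * g * y = g := by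
    have := Subgroup.mem_center_iff.1 (mem_center_iff.2 ⟨c, h⟩) y
    rw [mul_assoc, ← this, inv_mul_cancel_left]
  rw [h1]
  exact zd_scalar hv h

instance : MulAction (PG n F) (Vn n hv) where
  smul g x := Quotient.liftOn' g (fun a => a • x) (by
    intro a b h
    show a • x = b • x
    have h1 : a⁻¹ * b ∈ Subgroup.center (GL (Fin n) F) := QuotientGroup.leftRel_apply.1 h
    obtain ⟨c, hc⟩ := mem_center_iff.1 h1
    have h2 := smul_of_scalar hv hc x
    rw [mul_smul] at h2
    exact (inv_smul_eq_iff.1 h2).symm)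
  one_smul x := one_smul (GL (Fin n) F) x
  mul_smul g h x := by
    obtain ⟨a, rfl⟩ := QuotientGroup.mk_surjective g
    obtain ⟨b, rfl⟩ := QuotientGroup.mk_surjective h
    exact mul_smul a b x

theorem pr_smul (g : GL (Fin n) F) (x : Vn n hv) : pr n F g • x = g • x := rfl

end

/-- conjugation -/
def cj (g : GL (Fin n) F) (x : Mn n F) : Mn n F := g.val * x * (g⁻¹).val

/-- the subspaces of the matrix algebra, as a type of its own (with the conjugation action) -/
def Sp (n : ℕ) (F : Type) [Field F] : Type := Submodule F (Mn n F)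

/-- the subspace -/
def Sp.sub (A : Sp n F) : Submodule F (Mn n F) := A

/-- conjugation of subspaces -/
def cjS (g : GL (Fin n) F) (A : Submodule F (Mn n F)) : Submodule F (Mn n F) where
  carrier := {x | cj g⁻¹ x ∈ A}
  add_mem' := by
    intro x y hx hy
    show cj g⁻¹ (x + y) ∈ A
    unfold cj
    rw [mul_add, add_mul]
    exact A.add_mem hx hy
  zero_mem' := by
    show cj g⁻¹ 0 ∈ A
    unfold cj
    rw [mul_zero, zero_mul]
    exact A.zero_mem
  smul_mem' := by
    intro c x hx
    show cj g⁻¹ (c • x) ∈ A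
    unfold cj
    rw [Matrix.mul_smul, Matrix.smul_mul]
    exact A.smul_mem c hx

theorem mem_cjS {g : GL (Fin n) F} {A : Submodule F (Mn n F)} {x : Mn n F} : x ∈ cjS g A ↔ cj g⁻¹ x ∈ A := Iff.rfl

theorem cj_one (x : Mn n F) : cj 1 x = x := by
  unfold cj
  simp

theorem cj_mul (g h : GL (Fin n) F) (x : Mn n F) : cj (g * h) x = cj g (cj h x) := by
  unfold cj
  rw [mul_inv_rev]
  simp only [Units.val_mul, mul_assoc]

theorem cj_scalar {g : GL (Fin n) F} {c : F} (h : g.val = c • (1 : Mn n F)) (x : Mn n F) : cj g x = x := by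
  have h1 : g.val * (g⁻¹).val = 1 := by
    rw [← Units.val_mul, mul_inv_cancel, Units.val_one]
  rw [h, Matrix.smul_mul, one_mul] at h1
  unfold cj
  rw [h, Matrix.smul_mul, one_mul, Matrix.smul_mul, ← Matrix.mul_smul, h1, mul_one]

instance : MulAction (PG n F) (Sp n F) where
  smul g A := Quotient.liftOn' g (fun a => (cjS a A : Submodule F (Mn n F))) (by
    intro a b h
    have h1 : a⁻¹ * b ∈ Subgroup.center (GL (Fin n) F) := QuotientGroup.leftRel_apply.1 h
    obtain ⟨c, hc⟩ := mem_center_iff.1 h1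
    refine Submodule.ext fun x => ?_
    show cj a⁻¹ x ∈ A.sub ↔ cj b⁻¹ x ∈ A.sub
    have h2 : cj (a⁻¹ * b) (cj b⁻¹ x) = cj a⁻¹ x := by
      rw [← cj_mul]
      congr 1
      group
    rw [← h2, cj_scalar hc])
  one_smul A := by
    refine Submodule.ext fun x => ?_
    show cj (1 : GL (Fin n) F)⁻¹ x ∈ A.sub ↔ x ∈ A.sub
    rw [inv_one, cj_one]
  mul_smul g h A := by
    obtain ⟨a, rfl⟩ := QuotientGroup.mk_surjective g
    obtain ⟨b, rfl⟩ := QuotientGroup.mk_surjective h
    refine Submodule.ext fun x => ?_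
    show cj (a * b)⁻¹ x ∈ A.sub ↔ cj b⁻¹ (cj a⁻¹ x) ∈ A.sub
    rw [mul_inv_rev, cj_mul]

theorem pr_smul_sp (g : GL (Fin n) F) (A : Sp n F) : pr n F g • A = (cjS g A.sub : Submodule F (Mn n F)) := rfl

/-- the preimage in the linear group -/
def pre (P : Subgroup (PG n F)) : Subgroup (GL (Fin n) F) := P.comap (pr n F)

theorem mem_pre {P : Subgroup (PG n F)} {g : GL (Fin n) F} : g ∈ pre P ↔ pr n F g ∈ P := Iff.rfl

/-- the normaliser of a subspace -/
def nz (A : Submodule F (Mn n F)) : Subgroup (GL (Fin n) F) where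
  carrier := {g | cjS g A = A}
  mul_mem' := by
    intro g h hg hh
    show cjS (g * h) A = A
    have hg' : cjS g A = A := hg
    have hh' : cjS h A = A := hh
    refine Submodule.ext fun x => ?_
    rw [mem_cjS, mul_inv_rev, cj_mul, ← mem_cjS, hh', ← mem_cjS, hg']
  one_mem' := by
    show cjS 1 A = A
    refine Submodule.ext fun x => ?_
    rw [mem_cjS, inv_one, cj_one]
  inv_mem' := by
    intro g hg
    show cjS g⁻¹ A = A
    have hg' : cjS g A = A := hg
    refine Submodule.ext fun x => ?_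
    rw [mem_cjS, inv_inv]
    nth_rewrite 1 [← hg']
    rw [mem_cjS, ← cj_mul, inv_mul_cancel, cj_one]

theorem mem_nz {g : GL (Fin n) F} {A : Submodule F (Mn n F)} : g ∈ nz A ↔ cjS g A = A := Iff.rfl

end Pool.Agent.H10.RA
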